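import Pool.Agent.X39.AZ.Main

set_option autoImplicit false

/-!
# The order of a nonabelian `p`-group is bounded by its average number of character zeros

There is a function `f : ℝ → ℝ` with `|G| ≤ f (anz G)` for every nonabelian `p`-group `G` and every
prime `p`.
-/

namespace Pool.Agent.Results.MP_f3d5fe_al.OrderBound

open CategoryTheory

/-- `Irr(G)`: the characters of the simple finite-dimensional complex representations of `G`. -/
def Irr (G : Type) [Group G] : Set (G → ℂ) :=
  {χ | ∃ V : FDRep ℂ G, Simple V ∧ V.character = χ}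

/-- `k(G) = |Irr(G)|`. -/
noncomputable def k (G : Type) [Group G] : ℕ := Nat.card (Irr G)

/-- `z(G)`: the number of pairs `(χ, K)` of an irreducible character `χ` and a conjugacy class `K`
such that `χ` is zero on `K`. -/
noncomputable def z (G : Type) [Group G] : ℕ :=
  Nat.card {q : Irr G × ConjClasses G // ∀ g ∈ q.2.carrier, (q.1 : G → ℂ) g = 0}

/-- `anz(G) = z(G) / k(G)`: the average number of zeros in a row of the character table. -/
noncomputable def anz (G : Type) [Group G] : ℝ := (z G : ℝ) / (k G : ℝ)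

/-- There is a function `f : ℝ → ℝ` such that every nonabelian `p`-group `G`, for every prime `p`,
satisfies `|G| ≤ f (anz G)`. -/
theorem result : ∃ f : ℝ → ℝ, ∀ p : ℕ, p.Prime → ∀ (G : Type) [Group G] [Finite G],
    IsPGroup p G → (∃ a b : G, a * b ≠ b * a) → (Nat.card G : ℝ) ≤ f (anz G) := by
  refine ⟨Pool.Agent.X39.AZ.fF, fun p hp G _ _ hG hna => ?_⟩
  have := Fintype.ofFinite G
  refine Pool.Agent.X39.AZ.main p hp G hG hna _ ?_
  have h1 : z G = Pool.Agent.X39.AZ.zz G := Pool.Agent.X39.AZ.card_pairs
  have h2 : k G = Pool.Agent.X39.AZ.kk G := Pool.Agent.X39.AZ.card_irr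
  have h3 : (0 : ℝ) < (Pool.Agent.X39.AZ.kk G : ℝ) := by
    have : 0 < Pool.Agent.X39.AZ.kk G := Nat.card_pos
    exact_mod_cast this
  unfold anz
  rw [h1, h2, div_mul_cancel₀ _ h3.ne']

end Pool.Agent.Results.MP_f3d5fe_al.OrderBound
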